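import Pool.Agent.Q31.GLW.Stm

/-!
# GLW-RED (project GLW of helper31): reduction of words
-/

set_option autoImplicit false

namespace Pool.Agent.Q79.GLW

open Pool.Agent.Q31.GLW

variable {F V : Type} [Field F] [AddCommGroup V] [Module F V]

theorem ev_append (h : V ≃ₗ[F] V) (L₁ L₂ : List ((V ≃ₗ[F] V) × Bool)) :
    ev h (L₁ ++ L₂) = ev h L₂ * ev h L₁ := by
  induction L₁ with
  | nil => simp [ev]
  | cons a L₁ ih => simp only [List.cons_append, ev, ih, mul_assoc]

theorem act_not_mul (h : V ≃ₗ[F] V) (e : Bool) : act h (!e) * act h e = 1 := by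
  cases e <;> simp [act]

theorem sc_comm (k : V ≃ₗ[F] V) (hk : Sc k) (g : V ≃ₗ[F] V) : g * k = k * g := by
  obtain ⟨c, hc⟩ := hk
  ext v
  simp [LinearEquiv.mul_apply, hc]

theorem isConj_mul_comm {G : Type} [Group G] (x y : G) : IsConj (x * y) (y * x) :=
  isConj_iff.2 ⟨y, by group⟩

/-- the good alternatives -/
def Good (K : Subgroup (V ≃ₗ[F] V)) (h x : V ≃ₗ[F] V) : Prop :=
  (∃ k ∈ K, IsConj x k) ∨ ∃ (a : (V ≃ₗ[F] V) × Bool) (M : List ((V ≃ₗ[F] V) × Bool)),
      a.1 ∈ K ∧ (∀ b ∈ M, b.1 ∈ K) ∧ Cyc a M ∧ IsConj x (ev h (a :: M))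

theorem Good.conj {K : Subgroup (V ≃ₗ[F] V)} {h x y : V ≃ₗ[F] V} (hxy : IsConj x y)
    (hy : Good K h y) : Good K h x := by
  rcases hy with ⟨k, hk, hc⟩ | ⟨a, M, ha, hM, hc, hd⟩
  · exact Or.inl ⟨k, hk, hxy.trans hc⟩
  · exact Or.inr ⟨a, M, ha, hM, hc, hxy.trans hd⟩

/-- a violation of reducedness -/
theorem exists_violation (W : List ((V ≃ₗ[F] V) × Bool)) (hW : ¬ Rd W) :
    ∃ (L₁ L₂ : List ((V ≃ₗ[F] V) × Bool)) (a b : (V ≃ₗ[F] V) × Bool),
      W = L₁ ++ a :: b :: L₂ ∧ b.2 = !a.2 ∧ Sc b.1 := by
  induction W with
  | nil => exact absurd trivial hW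
  | cons a W ih =>
    cases W with
    | nil => exact absurd trivial hW
    | cons b M =>
      by_cases h1 : (b.2 = a.2 ∨ ¬ Sc b.1)
      · have h2 : ¬ Rd (b :: M) := fun h2 => hW ⟨h1, h2⟩
        obtain ⟨L₁, L₂, a', b', he, h3, h4⟩ := ih h2
        exact ⟨a :: L₁, L₂, a', b', by rw [he]; rfl, h3, h4⟩
      · push Not at h1
        refine ⟨[], M, a, b, rfl, ?_, h1.2⟩
        cases hb : b.2 <;> cases ha : a.2 <;> simp_all

theorem lastE_append (e : Bool) (M : List ((V ≃ₗ[F] V) × Bool)) (l : (V ≃ₗ[F] V) × Bool) :
    lastE e (M ++ [l]) = l.2 := by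
  induction M generalizing e with
  | nil => rfl
  | cons b M ih => simp only [List.cons_append, lastE]; exact ih b.2

theorem main (K : Subgroup (V ≃ₗ[F] V)) (h : V ≃ₗ[F] V) : ∀ (n : ℕ)
    (W : List ((V ≃ₗ[F] V) × Bool)), W.length ≤ n → (∀ b ∈ W, b.1 ∈ K) → Good K h (ev h W) := by
  intro n
  induction n with
  | zero =>
    intro W hW _
    have : W = [] := List.length_eq_zero_iff.1 (by omega)
    subst this
    exact Or.inl ⟨1, K.one_mem, by simp [ev]⟩
  | succ n ih =>
    -- the case of a violation at the front
    have front : ∀ (L : List ((V ≃ₗ[F] V) × Bool)) (a b : (V ≃ₗ[F] V) × Bool),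
        (a :: b :: L).length ≤ n + 1 → (∀ c ∈ a :: b :: L, c.1 ∈ K) → b.2 = !a.2 → Sc b.1 →
        Good K h (ev h (a :: b :: L)) := by
      intro L a b hL hK hab hb
      have ha1 : a.1 ∈ K := hK a (by simp)
      have hb1 : b.1 ∈ K := hK b (by simp)
      have key : ev h (a :: b :: L) = ev h L * (b.1 * a.1) := by
        have h1 : act h b.2 * b.1 * (act h a.2 * a.1) = b.1 * a.1 := by
          rw [sc_comm b.1 hb, mul_assoc, ← mul_assoc (act h b.2), hab, act_not_mul, one_mul]
        simp only [ev]
        rw [mul_assoc, h1]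
      rw [key]
      cases L with
      | nil =>
        refine Or.inl ⟨b.1 * a.1, K.mul_mem hb1 ha1, ?_⟩
        have : ev h [] * (b.1 * a.1) = b.1 * a.1 := by simp only [ev, one_mul]
        rw [this]
      | cons c M =>
        have h2 : ev h (c :: M) * (b.1 * a.1) = ev h ((c.1 * (b.1 * a.1), c.2) :: M) := by
          simp only [ev, mul_assoc]
        rw [h2]
        apply ih
        · simp only [List.length_cons] at hL ⊢; omega
        · intro d hd
          rcases List.mem_cons.1 hd with rfl | hd
          · exact K.mul_mem (hK c (by simp)) (K.mul_mem hb1 ha1)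
          · exact hK d (by simp [hd])
    intro W hW hK
    cases W with
    | nil => exact Or.inl ⟨1, K.one_mem, by simp [ev]⟩
    | cons a M =>
      by_cases hc : Cyc a M
      · exact Or.inr ⟨a, M, hK a (by simp), fun b hb => hK b (by simp [hb]), hc, IsConj.refl _⟩
      · by_cases hR : Rd (a :: M)
        · have h1 : a.2 ≠ lastE a.2 M ∧ Sc a.1 := by
            by_contra h1
            apply hc
            refine ⟨hR, ?_⟩
            by_contra h2
            push Not at h2
            exact h1 ⟨h2.1, h2.2⟩
          rcases List.eq_nil_or_concat M with rfl | ⟨M', l, rfl⟩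
          · exact absurd rfl h1.1
          · have hl : lastE a.2 (M' ++ [l]) = l.2 := lastE_append _ _ _
            have h3 : a.2 = !l.2 := by
              have := h1.1
              rw [List.concat_eq_append] at this
              rw [hl] at this
              cases ha : a.2 <;> cases hb : l.2 <;> simp_all
            refine Good.conj (y := ev h (l :: a :: M')) ?_ (front M' l a ?_ ?_ h3 h1.2)
            · have e1 : ev h (a :: (M' ++ [l])) = ev h [l] * ev h (a :: M') := by
                rw [← ev_append]; rfl
              have e2 : ev h (l :: a :: M') = ev h (a :: M') * ev h [l] := by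
                rw [← ev_append]; rfl
              rw [List.concat_eq_append, e1, e2]
              exact isConj_mul_comm _ _
            · simp only [List.length_cons, List.concat_eq_append, List.length_append,
                List.length_nil] at hW ⊢
              omega
            · intro c hc'
              apply hK
              simp only [List.mem_cons, List.concat_eq_append, List.mem_append,
                List.not_mem_nil, or_false] at hc' ⊢
              tauto
        · obtain ⟨L₁, L₂, a', b', he, h3, h4⟩ := exists_violation _ hR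
          rw [he] at hW hK ⊢
          refine Good.conj (y := ev h (a' :: b' :: (L₂ ++ L₁))) ?_
            (front (L₂ ++ L₁) a' b' ?_ ?_ h3 h4)
          · have e2 : ev h (a' :: b' :: (L₂ ++ L₁)) = ev h L₁ * ev h (a' :: b' :: L₂) := by
              rw [← ev_append]; rfl
            rw [ev_append, e2]
            exact isConj_mul_comm _ _
          · simp only [List.length_cons, List.length_append] at hW ⊢
            omega
          · intro c hc'
            apply hK
            simp only [List.mem_cons, List.mem_append] at hc' ⊢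
            tauto

theorem t_RED : S_RED := by
  intro F V _ _ _ K h x hx
  have h1 : ∃ k ∈ K, ∃ W : List ((V ≃ₗ[F] V) × Bool), (∀ b ∈ W, b.1 ∈ K) ∧ x = k * ev h W := by
    induction hx using Subgroup.closure_induction_left with
    | one => exact ⟨1, K.one_mem, [], by simp, by simp [ev]⟩
    | mul_left y hy z hz ih =>
      obtain ⟨k, hk, W, hW, rfl⟩ := ih
      rcases hy with hy | hy
      · exact ⟨y * k, K.mul_mem hy hk, W, hW, by rw [mul_assoc]⟩
      · have hy' : y = h := hy
        subst hy'
        refine ⟨1, K.one_mem, W ++ [(k, true)], ?_, ?_⟩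
        · intro b hb
          rcases List.mem_append.1 hb with hb | hb
          · exact hW b hb
          · rw [List.mem_singleton.1 hb]; exact hk
        · rw [ev_append]
          simp [ev, act, mul_assoc]
    | inv_mul_cancel y hy z hz ih =>
      obtain ⟨k, hk, W, hW, rfl⟩ := ih
      rcases hy with hy | hy
      · exact ⟨y⁻¹ * k, K.mul_mem (K.inv_mem hy) hk, W, hW, by rw [mul_assoc]⟩
      · have hy' : y = h := hy
        subst hy'
        refine ⟨1, K.one_mem, W ++ [(k, false)], ?_, ?_⟩
        · intro b hb
          rcases List.mem_append.1 hb with hb | hb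
          · exact hW b hb
          · rw [List.mem_singleton.1 hb]; exact hk
        · rw [ev_append]
          simp [ev, act, mul_assoc]
  obtain ⟨k, hk, W, hW, rfl⟩ := h1
  have h2 : Good K h (k * ev h W) := by
    cases W with
    | nil =>
      refine Or.inl ⟨k, hk, ?_⟩
      have : k * ev h [] = k := by simp only [ev, mul_one]
      rw [this]
    | cons a M =>
      refine Good.conj (isConj_mul_comm _ _) ?_
      have h3 : ev h (a :: M) * k = ev h ((a.1 * k, a.2) :: M) := by
        simp only [ev, mul_assoc]
      rw [h3]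
      apply main K h _ _ le_rfl
      intro d hd
      rcases List.mem_cons.1 hd with rfl | hd
      · exact K.mul_mem (hW a (by simp)) hk
      · exact hW d (by simp [hd])
  exact h2

end Pool.Agent.Q79.GLW
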